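import Pool.Agent.X229.HessMain

namespace Pool.Agent.Results.MP_d44d58_nt.ExactlyTwelve

open Polynomial Pool.Agent.X229.Hess

/-- The matrix `M(m,n)` of the problem. -/
def M (m n : ℤ) : Matrix (Fin 3) (Fin 3) ℤ :=
  !![0, 1, n + 1; 1, 1, m + n; 0, 2, 2 * n + 1]

/-- NRS-matrix: the characteristic polynomial is irreducible over `ℚ` and has one real root and
two non-real complex conjugate roots. -/
def IsNRS (A : Matrix (Fin 3) (Fin 3) ℤ) : Prop :=
  Irreducible (A.charpoly.map (Int.castRingHom ℚ)) ∧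
    ∃ (t : ℝ) (z : ℂ), z.im ≠ 0 ∧ A.charpoly.map (Int.castRingHom ℂ) =
      (X - C (t : ℂ)) * (X - C z) * (X - C ((starRingEnd ℂ) z))

/-- `Δ_A(v) = |det(v, Av, A²v)|`. -/
def Delta (A : Matrix (Fin 3) (Fin 3) ℤ) (v : Fin 3 → ℤ) : ℤ :=
  |(Matrix.transpose (Matrix.of ![v, A.mulVec v, A.mulVec (A.mulVec v)])).det|

/-- `A` is ς-reduced (for `A = M(m,n)`): `Δ_A` attains its minimum over the nonzero integer
vectors at `e₁ = (1,0,0)`. -/
def IsReduced (A : Matrix (Fin 3) (Fin 3) ℤ) : Prop :=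
  ∀ v : Fin 3 → ℤ, v ≠ 0 → Delta A ![1, 0, 0] ≤ Delta A v

theorem charpoly_M (m n : ℤ) :
    (M m n).charpoly = X ^ 3 - C (2 * n + 2) * X ^ 2 + C (-2 * m) * X - 1 := by
  unfold Matrix.charpoly Matrix.charmatrix M
  rw [Matrix.det_fin_three]
  simp
  ring

theorem det_eq (m n x y z : ℤ) :
    4 * (Matrix.transpose (Matrix.of ![![x, y, z], (M m n).mulVec ![x, y, z],
      (M m n).mulVec ((M m n).mulVec ![x, y, z])])).det =
    NN (2 * n + 2) (-2 * m) (2 * x + (2 * m - 1) * z) (2 * y + (2 * n + 1) * z) z := by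
  rw [Matrix.det_transpose, Matrix.det_fin_three]
  simp [M, dotProduct, Fin.sum_univ_three, NN]
  ring

/-! ### NRS and the discriminant -/

theorem charpoly_map {R : Type*} [CommRing R] (m n : ℤ) :
    (M m n).charpoly.map (Int.castRingHom R) =
      X ^ 3 - C ((2 * n + 2 : ℤ) : R) * X ^ 2 + C ((-2 * m : ℤ) : R) * X - 1 := by
  rw [charpoly_M]
  simp [show (C (2 : R) : R[X]) = 2 from map_ofNat C 2]

theorem natDegree_cubic {K : Type*} [Field K] (a b : K) :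
    (X ^ 3 - C a * X ^ 2 + C b * X - 1 : K[X]).natDegree = 3 := by
  compute_degree!

theorem ne_of_nrs {m n : ℤ} (h : IsNRS (M m n)) : 2 * n + 2 ≠ -2 * m := by
  intro e
  have h1 := h.1
  rw [charpoly_map, e] at h1
  have h2 : (X ^ 3 - C ((-2 * m : ℤ) : ℚ) * X ^ 2 + C ((-2 * m : ℤ) : ℚ) * X - 1 : ℚ[X]).IsRoot 1 := by
    simp [IsRoot]
  have h3 := degree_eq_one_of_irreducible_of_root h1 h2
  have h4 := natDegree_eq_of_degree_eq_some h3
  rw [natDegree_cubic] at h4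
  norm_num at h4

theorem DD_pos_of_nrs {m n : ℤ} (h : IsNRS (M m n)) : 0 < DD (2 * n + 2) (-2 * m) := by
  obtain ⟨-, t, z, hz, he⟩ := h
  rw [charpoly_map] at he
  generalize hA : 2 * n + 2 = A at *
  generalize hB : -2 * m = B at *
  have key : ∀ x : ℝ, x ^ 3 - A * x ^ 2 + B * x - 1 = (x - t) * ((x - z.re) ^ 2 + z.im ^ 2) := by
    intro x
    have h1 := congrArg (fun P => (P.eval (x : ℂ)).re) he
    simp only [eval_sub, eval_add, eval_mul, eval_pow, eval_X, eval_C, eval_one] at h1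
    have h2 : ((x : ℂ) ^ 3 - ((A : ℤ) : ℂ) * (x : ℂ) ^ 2 + ((B : ℤ) : ℂ) * (x : ℂ) - 1).re
        = x ^ 3 - A * x ^ 2 + B * x - 1 := by
      have : ((x : ℂ) ^ 3 - ((A : ℤ) : ℂ) * (x : ℂ) ^ 2 + ((B : ℤ) : ℂ) * (x : ℂ) - 1)
          = ((x ^ 3 - A * x ^ 2 + B * x - 1 : ℝ) : ℂ) := by push_cast; ring
      rw [this, Complex.ofReal_re]
    have h3 : (((x : ℂ) - (t : ℂ)) * ((x : ℂ) - z) * ((x : ℂ) - (starRingEnd ℂ) z)).re
        = (x - t) * ((x - z.re) ^ 2 + z.im ^ 2) := by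
      simp [Complex.mul_re, Complex.mul_im]
      ring
    rw [h2, h3] at h1
    exact h1
  have k0 := key 0
  have k1 := key 1
  have k2 := key (-1)
  set a := z.re with ha
  set b := z.im with hb
  have e1 : t * (a ^ 2 + b ^ 2) = 1 := by linarith
  have e2 : (A : ℝ) = t + 2 * a := by linarith
  have e3 : (B : ℝ) = 2 * t * a + (a ^ 2 + b ^ 2) := by linarith
  have e4 : (DD A B : ℝ) = 4 * b ^ 2 * ((t - a) ^ 2 + b ^ 2) ^ 2 := by
    have e : (DD A B : ℝ) = 4 * (A:ℝ) ^ 3 * (t * (a ^ 2 + b ^ 2)) + 4 * B ^ 3 - A ^ 2 * B ^ 2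
        - 18 * A * B * (t * (a ^ 2 + b ^ 2)) + 27 * (t * (a ^ 2 + b ^ 2)) ^ 2 := by
      rw [e1]; unfold DD; push_cast; ring
    rw [e, e2, e3]
    ring
  have hb2 : 0 < b ^ 2 := by positivity
  have : (0 : ℝ) < DD A B := by
    rw [e4]
    have : 0 ≤ (t - a) ^ 2 := sq_nonneg _
    positivity
  exact_mod_cast this

theorem real_root' (A B : ℤ) : ∃ t : ℝ, t ^ 3 - A * t ^ 2 + B * t - 1 = 0 := by
  have hc : ContinuousOn (fun x : ℝ => x ^ 3 - A * x ^ 2 + B * x - 1)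
      (Set.Icc (-(2 + |(A : ℝ)| + |(B : ℝ)|)) (2 + |(A : ℝ)| + |(B : ℝ)|)) := by
    fun_prop
  have ha0 := abs_nonneg (A : ℝ)
  have hb0 := abs_nonneg (B : ℝ)
  have ha1 := neg_abs_le (A : ℝ)
  have hb1 := neg_abs_le (B : ℝ)
  have ha2 := le_abs_self (A : ℝ)
  have hb2 := le_abs_self (B : ℝ)
  generalize |(A : ℝ)| = a at *
  generalize |(B : ℝ)| = b at *
  have hK : ∃ K : ℝ, K = 2 + a + b := ⟨_, rfl⟩
  obtain ⟨K, hK⟩ := hK
  rw [← hK] at hc
  have hKa : 2 ≤ K - a := by linarith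
  have hKb : b + 2 ≤ K := by linarith
  have hK2 : 2 ≤ K := by linarith
  have hKK : 0 ≤ K ^ 2 := sq_nonneg K
  have e1 : 4 ≤ K * (K * (K - a) - b) := by nlinarith
  have hAK : -(a * K ^ 2) ≤ A * K ^ 2 ∧ A * K ^ 2 ≤ a * K ^ 2 := by
    constructor <;> nlinarith
  have hBK : -(b * K) ≤ B * K ∧ B * K ≤ b * K := by
    constructor <;> nlinarith
  have h0 : (0 : ℝ) ∈ Set.Ioo ((fun x : ℝ => x ^ 3 - A * x ^ 2 + B * x - 1) (-K))
      ((fun x : ℝ => x ^ 3 - A * x ^ 2 + B * x - 1) K) := by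
    constructor
    · show (-K) ^ 3 - A * (-K) ^ 2 + B * (-K) - 1 < 0
      nlinarith [hAK.1, hBK.1]
    · show (0 : ℝ) < K ^ 3 - A * K ^ 2 + B * K - 1
      nlinarith [hAK.2, hBK.1]
  obtain ⟨t, ht, hft⟩ := intermediate_value_Ioo (by linarith : -K ≤ K) hc h0
  exact ⟨t, hft⟩

theorem nrs_of {m n : ℤ} (hne : 2 * n + 2 ≠ -2 * m) (hD : 0 < DD (2 * n + 2) (-2 * m)) :
    IsNRS (M m n) := by
  unfold IsNRS
  rw [charpoly_map, charpoly_map]
  generalize hA : 2 * n + 2 = A at *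
  generalize hB : -2 * m = B at *
  constructor
  · rw [irreducible_iff_roots_eq_zero_of_degree_le_three (by rw [natDegree_cubic]; norm_num)
      (by rw [natDegree_cubic])]
    rw [Multiset.eq_zero_iff_forall_notMem]
    intro x hx
    have hx' := (mem_roots'.mp hx).2
    have hmon : (X ^ 3 - C A * X ^ 2 + C B * X - 1 : ℤ[X]).Monic := by
      monicity!
    have hae : aeval x (X ^ 3 - C A * X ^ 2 + C B * X - 1 : ℤ[X]) = 0 := by
      rw [IsRoot.def] at hx'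
      simp at hx' ⊢
      exact hx'
    obtain ⟨k, hk⟩ := isInteger_of_is_root_of_monic hmon hae
    have hk' : (k : ℚ) = x := by simpa using hk
    rw [← hk'] at hae
    simp at hae
    have hk3 : k ^ 3 - A * k ^ 2 + B * k - 1 = 0 := by exact_mod_cast hae
    have hdvd : k ∣ 1 := ⟨k ^ 2 - A * k + B, by linarith⟩
    rcases Int.isUnit_iff.mp (isUnit_of_dvd_one hdvd) with e | e
    · rw [e] at hk3
      apply hne
      linarith
    · rw [e] at hk3
      have hB' : B = -2 - A := by linarith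
      rw [hB'] at hD
      have : DD A (-2 - A) = -((A + 1) ^ 2 * ((A + 1) ^ 2 + 4)) := by unfold DD; ring
      rw [this] at hD
      have : 0 ≤ (A + 1) ^ 2 * ((A + 1) ^ 2 + 4) := by positivity
      linarith
  · obtain ⟨t, ht⟩ := real_root' A B
    have ht0 : t ≠ 0 := by rintro rfl; norm_num at ht
    have hBt : (B : ℝ) = t * (A - t) + t⁻¹ := by
      field_simp
      linarith
    have hDt : (DD A B : ℝ) = (t ^ 2 - (A - t) * t + t⁻¹) ^ 2 * (4 * t⁻¹ - (A - t) ^ 2) := by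
      have e : (DD A B : ℝ) = 4 * (A:ℝ) ^ 3 + 4 * B ^ 3 - A ^ 2 * B ^ 2 - 18 * A * B + 27 := by
        unfold DD; push_cast; ring
      rw [e, hBt]
      field_simp
      ring
    have hD' : (0 : ℝ) < DD A B := by exact_mod_cast hD
    rw [hDt] at hD'
    have hpos : 0 < 4 * t⁻¹ - ((A : ℝ) - t) ^ 2 := by
      by_contra hc
      push Not at hc
      have := mul_nonpos_of_nonneg_of_nonpos (sq_nonneg (t ^ 2 - ((A : ℝ) - t) * t + t⁻¹)) hc
      linarith
    refine ⟨t, ⟨((A : ℝ) - t) / 2, √(4 * t⁻¹ - ((A : ℝ) - t) ^ 2) / 2⟩, ?_, ?_⟩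
    · have := Real.sqrt_pos.mpr hpos
      simp only
      positivity
    · have hsq : √(4 * t⁻¹ - ((A : ℝ) - t) ^ 2) ^ 2 = 4 * t⁻¹ - ((A : ℝ) - t) ^ 2 :=
        Real.sq_sqrt hpos.le
      generalize √(4 * t⁻¹ - ((A : ℝ) - t) ^ 2) = w at hsq
      set z : ℂ := ⟨((A : ℝ) - t) / 2, w / 2⟩ with hz
      have h1 : z + (starRingEnd ℂ) z = ((A - t : ℝ) : ℂ) := by
        rw [Complex.add_conj]
        rw [hz]
        simp only
        push_cast
        ring
      have h2 : z * (starRingEnd ℂ) z = ((t⁻¹ : ℝ) : ℂ) := by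
        rw [Complex.mul_conj]
        congr 1
        rw [Complex.normSq_apply, hz]
        simp only
        linarith
      have h3 : (X - C (t : ℂ)) * (X - C z) * (X - C ((starRingEnd ℂ) z))
          = (X - C (t : ℂ)) * (X ^ 2 - C (z + (starRingEnd ℂ) z) * X + C (z * (starRingEnd ℂ) z)) := by
        rw [C_add, C_mul]
        ring
      rw [h3, h1, h2]
      have h4 : ((A : ℤ) : ℂ) = (t : ℂ) + ((A - t : ℝ) : ℂ) := by push_cast; ring
      have h5 : ((B : ℤ) : ℂ) = (t : ℂ) * ((A - t : ℝ) : ℂ) + ((t⁻¹ : ℝ) : ℂ) := by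
        have : ((B : ℤ) : ℂ) = ((B : ℝ) : ℂ) := by norm_cast
        rw [this, hBt]
        push_cast
        ring
      rw [h4, h5]
      have h6 : (C (t : ℂ)) * C ((t⁻¹ : ℝ) : ℂ) = 1 := by
        rw [← C_mul, ← C_1]
        congr 1
        rw [← Complex.ofReal_mul, mul_inv_cancel₀ ht0, Complex.ofReal_one]
      rw [C_add, C_add, C_mul]
      linear_combination h6

/-! ### positivity of `Δ` -/

theorem mulVec_cast (A : Matrix (Fin 3) (Fin 3) ℤ) (v : Fin 3 → ℤ) :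
    (A.map (Int.castRingHom ℚ)).mulVec (fun i => ((v i : ℤ) : ℚ)) =
      fun i => ((A.mulVec v i : ℤ) : ℚ) := by
  ext i
  simp [Matrix.mulVec, dotProduct]

theorem det_ne_zero {A : Matrix (Fin 3) (Fin 3) ℤ}
    (h : Irreducible (A.charpoly.map (Int.castRingHom ℚ))) (v : Fin 3 → ℤ) (hv : v ≠ 0) :
    (Matrix.transpose (Matrix.of ![v, A.mulVec v, A.mulVec (A.mulVec v)])).det ≠ 0 := by
  intro hdet
  rw [Matrix.det_transpose, ← Matrix.exists_vecMul_eq_zero_iff] at hdet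
  obtain ⟨c, hc, hcv⟩ := hdet
  rw [← Matrix.charpoly_map] at h
  set Q := A.map (Int.castRingHom ℚ) with hQ
  set w : Fin 3 → ℚ := fun i => ((v i : ℤ) : ℚ) with hw
  obtain ⟨c0, hc0⟩ : ∃ x : ℚ, x = ((c 0 : ℤ) : ℚ) := ⟨_, rfl⟩
  obtain ⟨c1, hc1⟩ : ∃ x : ℚ, x = ((c 1 : ℤ) : ℚ) := ⟨_, rfl⟩
  obtain ⟨c2, hc2⟩ : ∃ x : ℚ, x = ((c 2 : ℤ) : ℚ) := ⟨_, rfl⟩
  set g : ℚ[X] := C c0 + C c1 * X + C c2 * X ^ 2 with hg
  have hg0 : g ≠ 0 := by
    intro h0
    apply hc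
    have k0 : g.coeff 0 = c0 := by simp [hg]
    have k1 : g.coeff 1 = c1 := by simp [hg, coeff_X, coeff_C]
    have k2 : g.coeff 2 = c2 := by simp [hg, coeff_X, coeff_C]
    rw [h0, coeff_zero] at k0 k1 k2
    rw [hc0] at k0
    rw [hc1] at k1
    rw [hc2] at k2
    ext i
    fin_cases i
    · exact_mod_cast k0.symm
    · exact_mod_cast k1.symm
    · exact_mod_cast k2.symm
  have hgd : g.natDegree ≤ 2 := by
    rw [hg]
    compute_degree!
  have hQd : Q.charpoly.natDegree = 3 := by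
    rw [Matrix.charpoly_natDegree_eq_dim]
    simp
  have hcop : IsCoprime Q.charpoly g := by
    rw [h.coprime_iff_not_dvd]
    intro hd
    have := natDegree_le_of_dvd hd hg0
    omega
  obtain ⟨a, b, hab⟩ := hcop
  have h1 := congrArg (fun P => aeval Q P) hab
  simp only [map_add, map_mul, map_one, Matrix.aeval_self_charpoly, mul_zero, zero_add] at h1
  have h2 : (aeval Q g).mulVec w = 0 := by
    have e1 : aeval Q g = c0 • (1 : Matrix (Fin 3) (Fin 3) ℚ) + c1 • Q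
        + c2 • (Q * Q) := by
      rw [hg]
      simp [Algebra.algebraMap_eq_smul_one, pow_two]
    rw [e1, Matrix.add_mulVec, Matrix.add_mulVec, Matrix.smul_mulVec, Matrix.smul_mulVec,
      Matrix.smul_mulVec, Matrix.one_mulVec, ← Matrix.mulVec_mulVec, hw, hQ, mulVec_cast,
      mulVec_cast]
    ext i
    have e2 := congrFun hcv i
    simp [Matrix.vecMul, dotProduct, Fin.sum_univ_three] at e2
    simp [hc0, hc1, hc2]
    exact_mod_cast e2
  have h3 : w = 0 := by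
    have e1 : w = (1 : Matrix (Fin 3) (Fin 3) ℚ).mulVec w := (Matrix.one_mulVec w).symm
    rw [e1, ← h1, ← Matrix.mulVec_mulVec, h2, Matrix.mulVec_zero]
  apply hv
  ext i
  have := congrFun h3 i
  simp [hw] at this
  simpa using this

theorem Delta_e1 (m n : ℤ) : Delta (M m n) ![1, 0, 0] = 2 := by
  unfold Delta
  have h := det_eq m n 1 0 0
  have h2 : NN (2 * n + 2) (-2 * m) (2 * 1 + (2 * m - 1) * 0) (2 * 0 + (2 * n + 1) * 0) 0 = 8 := by
    unfold NN; ring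
  rw [h2] at h
  have h3 : (Matrix.transpose (Matrix.of ![![1, 0, 0], (M m n).mulVec ![1, 0, 0],
      (M m n).mulVec ((M m n).mulVec ![1, 0, 0])])).det = 2 := by linarith
  rw [h3]
  norm_num

/-- the witnesses -/
theorem not_reduced {m n : ℤ} (x y z : ℤ) (hv : ![x, y, z] ≠ 0)
    (h : (NN (2 * n + 2) (-2 * m) (2 * x + (2 * m - 1) * z) (2 * y + (2 * n + 1) * z) z).natAbs = 4) :
    ¬ IsReduced (M m n) := by
  intro hr
  have h1 := hr _ hv
  rw [Delta_e1] at h1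
  unfold Delta at h1
  rw [← det_eq] at h
  rw [Int.abs_eq_natAbs] at h1
  omega

theorem forward {m n : ℤ} (h1 : IsNRS (M m n)) (h2 : ¬ IsReduced (M m n)) :
    inL (2 * n + 2) (-2 * m) = true ∨ inL (-2 * m) (2 * n + 2) = true := by
  unfold IsReduced at h2
  push Not at h2
  obtain ⟨v, hv, hlt⟩ := h2
  rw [Delta_e1] at hlt
  have hne := det_ne_zero h1.1 v hv
  unfold Delta at hlt
  have hveq : v = ![v 0, v 1, v 2] := by
    ext i; fin_cases i <;> rfl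
  rw [hveq] at hlt hne
  have hdet := det_eq m n (v 0) (v 1) (v 2)
  generalize (Matrix.transpose (Matrix.of ![![v 0, v 1, v 2], (M m n).mulVec ![v 0, v 1, v 2],
      (M m n).mulVec ((M m n).mulVec ![v 0, v 1, v 2])])).det = d at *
  generalize v 0 = x at *
  generalize v 1 = y at *
  generalize v 2 = z at *
  rw [Int.abs_eq_natAbs] at hlt
  have hd : d.natAbs = 1 := by omega
  have hN : (NN (2 * n + 2) (-2 * m) (2 * x + (2 * m - 1) * z) (2 * y + (2 * n + 1) * z) z).natAbs = 4 := by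
    rw [← hdet]; omega
  have hz : Odd z := by
    by_contra hc
    rw [Int.not_odd_iff_even] at hc
    obtain ⟨k, hk⟩ := hc
    have e : NN (2 * n + 2) (-2 * m) (2 * x + (2 * m - 1) * z) (2 * y + (2 * n + 1) * z) z
        = 8 * NN (2 * n + 2) (-2 * m) (x + (2 * m - 1) * k) (y + (2 * n + 1) * k) k := by
      rw [hk]; unfold NN; ring
    rw [e] at hN
    omega
  have hp : Odd (2 * x + (2 * m - 1) * z) := by
    apply Even.add_odd (even_two_mul x)
    exact Odd.mul ⟨m - 1, by ring⟩ hz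
  have hq : Odd (2 * y + (2 * n + 1) * z) := by
    apply Even.add_odd (even_two_mul y)
    exact Odd.mul ⟨n, by ring⟩ hz
  exact main ⟨n + 1, by ring⟩ ⟨-m, by ring⟩ (ne_of_nrs h1) (DD_pos_of_nrs h1) hp hq hz hN

theorem conv {m n A B : ℤ} (h1 : 2 * n + 2 = A) (h2 : -2 * m = B) :
    n = (A - 2) / 2 ∧ m = -(B / 2) := by omega

theorem backward {m n : ℤ}
    (h : (m = -2 ∧ n = -3) ∨ (m = -1 ∧ n = -2) ∨ (m = -1 ∧ n = -1) ∨ (m = 1 ∧ n = 0) ∨
      (m = 0 ∧ n = 0) ∨ (m = -2 ∧ n = 0) ∨ (m = 2 ∧ n = 1) ∨ (m = -1 ∧ n = 1) ∨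
      (m = -3 ∧ n = 1) ∨ (m = -2 ∧ n = 2) ∨ (m = -5 ∧ n = 2) ∨ (m = -3 ∧ n = 4)) :
    IsNRS (M m n) ∧ ¬ IsReduced (M m n) := by
  rcases h with ⟨rfl, rfl⟩ | ⟨rfl, rfl⟩ | ⟨rfl, rfl⟩ | ⟨rfl, rfl⟩ | ⟨rfl, rfl⟩ | ⟨rfl, rfl⟩ | ⟨rfl, rfl⟩ | ⟨rfl, rfl⟩ | ⟨rfl, rfl⟩ | ⟨rfl, rfl⟩ | ⟨rfl, rfl⟩ | ⟨rfl, rfl⟩
  · exact ⟨nrs_of (by decide) (by decide), not_reduced (0) (1) (1) (by decide) (by decide)⟩
  · exact ⟨nrs_of (by decide) (by decide), not_reduced (0) (1) (1) (by decide) (by decide)⟩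
  · exact ⟨nrs_of (by decide) (by decide), not_reduced (0) (1) (1) (by decide) (by decide)⟩
  · exact ⟨nrs_of (by decide) (by decide), not_reduced (0) (0) (1) (by decide) (by decide)⟩
  · exact ⟨nrs_of (by decide) (by decide), not_reduced (0) (0) (1) (by decide) (by decide)⟩
  · exact ⟨nrs_of (by decide) (by decide), not_reduced (1) (0) (1) (by decide) (by decide)⟩
  · exact ⟨nrs_of (by decide) (by decide), not_reduced (0) (0) (1) (by decide) (by decide)⟩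
  · exact ⟨nrs_of (by decide) (by decide), not_reduced (0) (-1) (1) (by decide) (by decide)⟩
  · exact ⟨nrs_of (by decide) (by decide), not_reduced (1) (-1) (1) (by decide) (by decide)⟩
  · exact ⟨nrs_of (by decide) (by decide), not_reduced (0) (-2) (1) (by decide) (by decide)⟩
  · exact ⟨nrs_of (by decide) (by decide), not_reduced (1) (-1) (1) (by decide) (by decide)⟩
  · exact ⟨nrs_of (by decide) (by decide), not_reduced (1) (-1) (1) (by decide) (by decide)⟩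

theorem forward' {m n : ℤ} (h1 : IsNRS (M m n)) (h2 : ¬ IsReduced (M m n)) :
    (m = -2 ∧ n = -3) ∨ (m = -1 ∧ n = -2) ∨ (m = -1 ∧ n = -1) ∨ (m = 1 ∧ n = 0) ∨
      (m = 0 ∧ n = 0) ∨ (m = -2 ∧ n = 0) ∨ (m = 2 ∧ n = 1) ∨ (m = -1 ∧ n = 1) ∨
      (m = -3 ∧ n = 1) ∨ (m = -2 ∧ n = 2) ∨ (m = -5 ∧ n = 2) ∨ (m = -3 ∧ n = 4) := by
  have h := forward h1 h2
  unfold inL at h
  simp only [Bool.or_eq_true, Bool.and_eq_true, beq_iff_eq] at h
  rcases h with (((((h | h) | h) | h) | h) | h) | (((((h | h) | h) | h) | h) | h)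
  · obtain ⟨hn, hm⟩ := conv h.1 h.2
    norm_num at hn hm; rw [hn, hm]; decide
  · obtain ⟨hn, hm⟩ := conv h.1 h.2
    norm_num at hn hm; rw [hn, hm]; decide
  · obtain ⟨hn, hm⟩ := conv h.1 h.2
    norm_num at hn hm; rw [hn, hm]; decide
  · obtain ⟨hn, hm⟩ := conv h.1 h.2
    norm_num at hn hm; rw [hn, hm]; decide
  · obtain ⟨hn, hm⟩ := conv h.1 h.2
    norm_num at hn hm; rw [hn, hm]; decide
  · obtain ⟨hn, hm⟩ := conv h.1 h.2
    norm_num at hn hm; rw [hn, hm]; decide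
  · obtain ⟨hn, hm⟩ := conv h.2 h.1
    norm_num at hn hm; rw [hn, hm]; decide
  · obtain ⟨hn, hm⟩ := conv h.2 h.1
    norm_num at hn hm; rw [hn, hm]; decide
  · obtain ⟨hn, hm⟩ := conv h.2 h.1
    norm_num at hn hm; rw [hn, hm]; decide
  · obtain ⟨hn, hm⟩ := conv h.2 h.1
    norm_num at hn hm; rw [hn, hm]; decide
  · obtain ⟨hn, hm⟩ := conv h.2 h.1
    norm_num at hn hm; rw [hn, hm]; decide
  · obtain ⟨hn, hm⟩ := conv h.2 h.1
    norm_num at hn hm; rw [hn, hm]; decide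

/-- There are exactly 12 pairs `(m,n)` such that `M(m,n)` is an NRS-matrix which is not
ς-reduced. -/
theorem result :
    {x : ℤ × ℤ | IsNRS (M x.1 x.2) ∧ ¬ IsReduced (M x.1 x.2)} =
      {(-2, -3), (-1, -2), (-1, -1), (1, 0), (0, 0), (-2, 0), (2, 1), (-1, 1), (-3, 1), (-2, 2),
        (-5, 2), (-3, 4)} ∧
    {x : ℤ × ℤ | IsNRS (M x.1 x.2) ∧ ¬ IsReduced (M x.1 x.2)}.ncard = 12 := by
  have key : {x : ℤ × ℤ | IsNRS (M x.1 x.2) ∧ ¬ IsReduced (M x.1 x.2)} =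
      {(-2, -3), (-1, -2), (-1, -1), (1, 0), (0, 0), (-2, 0), (2, 1), (-1, 1), (-3, 1), (-2, 2),
        (-5, 2), (-3, 4)} := by
    ext ⟨m, n⟩
    simp only [Set.mem_ofPred_eq, Set.mem_insert_iff, Set.mem_singleton_iff, Prod.mk.injEq]
    constructor
    · rintro ⟨h1, h2⟩
      exact forward' h1 h2
    · intro h
      exact backward h
  refine ⟨key, ?_⟩
  rw [key]
  have e : ({(-2, -3), (-1, -2), (-1, -1), (1, 0), (0, 0), (-2, 0), (2, 1), (-1, 1), (-3, 1),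
      (-2, 2), (-5, 2), (-3, 4)} : Set (ℤ × ℤ)) =
      ((({(-2, -3), (-1, -2), (-1, -1), (1, 0), (0, 0), (-2, 0), (2, 1), (-1, 1), (-3, 1),
      (-2, 2), (-5, 2), (-3, 4)} : Finset (ℤ × ℤ))) : Set (ℤ × ℤ)) := by
    simp
  rw [e, Set.ncard_coe_finset]
  decide

end Pool.Agent.Results.MP_d44d58_nt.ExactlyTwelve
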